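import Mathlib

/-!
# Convolution walks on cycles
-/

namespace Q296.Cyc

open Finset

/-- The transition matrix `P(x,y) = μ(y - x)` of the convolution walk on `ℤ/n`. -/
def kernel {n : ℕ} (μ : ZMod n → ℝ) : Matrix (ZMod n) (ZMod n) ℝ := fun x y => μ (y - x)

/-- `μ` is a symmetric probability measure on `ℤ/n` whose support generates `ℤ/n` (so the walk is
irreducible) and whose walk is aperiodic (the only common divisor of the possible return times
is `1`). -/
structure IsWalk {n : ℕ} [NeZero n] (μ : ZMod n → ℝ) : Prop where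
  nonneg : ∀ x, 0 ≤ μ x
  sum_one : ∑ x, μ x = 1
  symm : ∀ x, μ (-x) = μ x
  generates : AddSubgroup.closure {x | 0 < μ x} = ⊤
  aperiodic : ∀ g : ℕ, (∀ t : ℕ, 0 < t → 0 < (kernel μ ^ t) 0 0 → g ∣ t) → g = 1

/-- `‖μ^{*t} - U‖_TV`; the measure `μ^{*t}` is the law of the walk started at `0` after `t` steps,
that is the row `0` of `P^t`. -/
noncomputable def tv {n : ℕ} [NeZero n] (μ : ZMod n → ℝ) (t : ℕ) : ℝ :=
  (1 / 2 : ℝ) * ∑ y, |(kernel μ ^ t) 0 y - 1 / (n : ℝ)|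

/-- The mixing time `T_mix(ε) = min {t : ‖μ^{*t} - U‖_TV ≤ ε}`. -/
noncomputable def Tmix {n : ℕ} [NeZero n] (μ : ZMod n → ℝ) (ε : ℝ) : ℕ :=
  sInf {t : ℕ | tv μ t ≤ ε}

/-- `λ_*`, the largest absolute value of an eigenvalue of `P` other than `1`. -/
noncomputable def lamStar {n : ℕ} [NeZero n] (μ : ZMod n → ℝ) : ℝ :=
  sSup ((fun x : ℝ => |x|) '' (spectrum ℝ (kernel μ) \ {1}))

/-- The relaxation time `1 / (1 - λ_*)`. -/
noncomputable def Trel {n : ℕ} [NeZero n] (μ : ZMod n → ℝ) : ℝ := 1 / (1 - lamStar μ)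

end Q296.Cyc
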