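import Pool.Agent.Q296.Cyc.Defs
import Pool.Agent.Helper394.Wrap
import Pool.Agent.Y307.Prof.Walk

/-!
# Convolution walks on cycles with the product condition but without cutoff
-/

namespace Q296.Cyc

open Finset Filter Topology
open Pool.Agent

/-- half at `0`, half uniform on `S` -/
noncomputable def lazyMeas {n : ℕ} (S : Finset (ZMod n)) : ZMod n → ℝ :=
  fun x => (if x = 0 then 1 / 2 else 0) + (if x ∈ S then 1 / (2 * (S.card : ℝ)) else 0)

lemma kernel_mulVec {n : ℕ} [NeZero n] (S : Finset (ZMod n)) (f : ZMod n → ℝ) :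
    (kernel (lazyMeas S)).mulVec f = Helper394.V S f := by
  ext x
  rw [Helper394.V_apply, Helper394.U_apply]
  simp only [Matrix.mulVec, dotProduct, kernel, lazyMeas, add_mul, ite_mul, zero_mul, sub_eq_zero]
  rw [Finset.sum_add_distrib]
  congr 1
  · rw [Finset.sum_ite_eq' univ x]
    simp
    ring
  · rw [← Finset.sum_filter]
    rw [div_div, Finset.sum_div]
    refine Finset.sum_bij' (fun y _ => y - x) (fun s _ => x + s) ?_ ?_ ?_ ?_ ?_
    · intro y hy; simpa using hy
    · intro s hs; simpa using hs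
    · intro y _; simp
    · intro s _; simp
    · intro y _
      simp only [add_sub_cancel]
      ring

lemma kernel_pow_translate {n : ℕ} [NeZero n] (μ : ZMod n → ℝ) (t : ℕ) (x y z : ZMod n) :
    (kernel μ ^ t) (x + z) (y + z) = (kernel μ ^ t) x y := by
  induction t generalizing x y with
  | zero => simp [Matrix.one_apply]
  | succ t ih =>
    rw [pow_succ, Matrix.mul_apply, Matrix.mul_apply]
    rw [← Equiv.sum_comp (Equiv.addRight z)]
    refine Finset.sum_congr rfl fun w _ => ?_
    simp only [Equiv.coe_addRight, ih, kernel]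
    congr 2
    ring

lemma sum_translate {n : ℕ} [NeZero n] (μ : ZMod n → ℝ) (t : ℕ) (c : ℝ) (x : ZMod n) :
    ∑ y, |(kernel μ ^ t) x y - c| = ∑ y, |(kernel μ ^ t) 0 y - c| := by
  rw [← Equiv.sum_comp (Equiv.addRight x)]
  refine Finset.sum_congr rfl fun y _ => ?_
  have := kernel_pow_translate μ t 0 y x
  rw [zero_add] at this
  simp only [Equiv.coe_addRight, this]

theorem main :
    ∃ (N : ℕ → ℕ) (_ : ∀ k, NeZero (N k)) (μ : ∀ k, ZMod (N k) → ℝ),
      Tendsto N atTop atTop ∧ (∀ k, 2 ≤ N k) ∧ (∀ k, IsWalk (μ k)) ∧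
      (∀ k, 0 < Trel (μ k) ∧ Trel (μ k) ≤ 8) ∧
      Tendsto (fun k => (Tmix (μ k) (1 / 4) : ℝ) / Trel (μ k)) atTop atTop ∧
      ∀ ε : ℝ, 0 < ε → ε < 1 / 2 →
        1 < Real.log (1 / ε) / Real.log (1 / (1 - ε)) ∧
        Tendsto (fun k => (Tmix (μ k) ε : ℝ) / (Tmix (μ k) (1 - ε) : ℝ)) atTop
          (𝓝 (Real.log (1 / ε) / Real.log (1 / (1 - ε)))) := by
  obtain ⟨N, hN, S, w, hNn, hw1, hw2, hE⟩ := Y307.Prof.exists_seq
  have hB : ∀ n, Helper394.Bad (S n) (n + 64) := fun n =>
    (hE n).bad (by omega) (by nlinarith) (by omega) (by push_cast; exact hw1 n)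
      (by push_cast; exact hw2 n)
  have hP : ∀ n, ∀ f : ZMod (N n) → ℝ,
      (kernel (lazyMeas (S n))).mulVec f = Helper394.V (S n) f :=
    fun n f => kernel_mulVec (S n) f
  have hsq : Y307.Prof.Squeeze (fun n k => tv (lazyMeas (S n)) k)
      (fun n => 1 - (1 / 2) * (1 - w n)) (fun n => 1 / w n ^ 2)
      (fun n => 1 / ((1 / 2) * (1 - w n))) (fun n => (n + 64) ^ 2) (fun n => n + 64) := by
    refine Y307.Prof.squeeze_of hw1 hw2 (1 / 2) le_rfl (by norm_num) _ ?_ ?_
    · intro n k hk
      have h1 := (hE n).tv_lazy (by omega)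
        (fun t x => Helper394.row_sum (hB n) (hP n) t x) (hP n) k hk
      have e : (1 : ℝ) - 1 / 2 * (1 - w n) = (1 + w n) / 2 := by ring
      rw [e]
      refine h1.trans ?_
      unfold tv
      rw [ZMod.card]
    · intro n k
      have e : (1 : ℝ) - 1 / 2 * (1 - w n) = (1 + w n) / 2 := by ring
      rw [e]
      have h2 := Y307.Prof.tv_le_of_min _ (Helper394.row_sum (hB n) (hP n) k 0) _ (fun y =>
        (hE n).entry (by omega) (Y307.Prof.w_pos hw2 n) (Y307.Prof.w_lt hw1 n) (hP n) k 0 y)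
      unfold tv
      rw [ZMod.card] at h2
      exact h2
  have hspec : ∀ n, 0 ≤ lamStar (lazyMeas (S n)) ∧ lamStar (lazyMeas (S n)) ≤ 7 / 8 := by
    intro n
    have h := fun lam hlam hne => Helper394.fact_spec (hB n) (hP n) lam hlam hne
    constructor
    · apply Real.sSup_nonneg
      rintro _ ⟨x, _, rfl⟩
      exact abs_nonneg x
    · apply Real.sSup_le
      · rintro _ ⟨x, ⟨hx, hx1⟩, rfl⟩
        have h3 := h x hx hx1
        simp only
        rw [abs_of_nonneg (by linarith [h3.1])]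
        exact h3.2
      · norm_num
  have hrel : ∀ n, 0 < Trel (lazyMeas (S n)) ∧ Trel (lazyMeas (S n)) ≤ 8 := by
    intro n
    have h6 : 0 < 1 - lamStar (lazyMeas (S n)) := by linarith [(hspec n).2]
    refine ⟨one_div_pos.mpr h6, ?_⟩
    rw [Trel, div_le_iff₀ h6]
    linarith [(hspec n).2]
  have hmix : ∀ ε : ℝ, 0 < ε → ε < 1 →
      Tendsto (fun n => (Tmix (lazyMeas (S n)) ε : ℝ) /
        (1 / ((1 / 2) * (1 - w n)))) atTop (𝓝 (Real.log (1 / ε))) :=
    fun ε h0 h1 => hsq.mixing h0 h1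
  have hratio : ∀ ε : ℝ, 0 < ε → ε < 1 / 2 →
      Tendsto (fun n => (Tmix (lazyMeas (S n)) ε : ℝ) /
        (Tmix (lazyMeas (S n)) (1 - ε) : ℝ)) atTop
        (𝓝 (Real.log (1 / ε) / Real.log (1 / (1 - ε)))) :=
    fun ε h0 h1 => hsq.ratio h0 (by linarith) (by linarith) (by linarith)
  refine ⟨N, hN, fun n => lazyMeas (S n), ?_, ?_, ?_, hrel, ?_,
    fun ε h0 h1 => ⟨Y307.Prof.log_ratio_ne h0 h1, hratio ε h0 h1⟩⟩
  · refine tendsto_atTop_mono (fun n => ?_) tendsto_id
    have := hNn n
    simp only [id]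
    omega
  · intro n
    have := hNn n
    omega
  · intro n
    have hS0 : (0 : ZMod (N n)) ∉ S n := (hE n).zero
    have hcard : 0 < (S n).card := (hB n).nonempty.card_pos
    have hcard' : (0 : ℝ) < (S n).card := by exact_mod_cast hcard
    have hnn : ∀ x, 0 ≤ lazyMeas (S n) x := by
      intro x
      unfold lazyMeas
      split_ifs <;> positivity
    refine ⟨hnn, ?_, ?_, ?_, ?_⟩
    · unfold lazyMeas
      rw [Finset.sum_add_distrib, Finset.sum_ite_eq' univ 0, if_pos (mem_univ _),
        ← Finset.sum_filter, Finset.filter_mem_eq_inter, Finset.univ_inter, sum_const,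
        nsmul_eq_mul]
      field_simp
      norm_num
    · intro x
      unfold lazyMeas
      have h1 : (-x ∈ S n) ↔ (x ∈ S n) := by
        constructor
        · intro h; have := (hE n).neg _ h; rwa [neg_neg] at this
        · intro h; exact (hE n).neg _ h
      simp only [neg_eq_zero, h1]
    · rw [eq_top_iff]
      intro x _
      refine (hB n).closed (AddSubgroup.closure {x | 0 < lazyMeas (S n) x} :
        Set (ZMod (N n))) 0 (AddSubgroup.zero_mem _) ?_ x
      intro y hy s hs
      refine AddSubgroup.add_mem _ hy (AddSubgroup.subset_closure ?_)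
      change 0 < lazyMeas (S n) s
      unfold lazyMeas
      rw [if_pos hs]
      split_ifs <;> positivity
    · intro g hg
      have h1 := hg 1 one_pos (by
        rw [pow_one]
        change 0 < lazyMeas (S n) (0 - 0)
        unfold lazyMeas
        rw [sub_zero, if_pos rfl, if_neg hS0]
        norm_num)
      exact Nat.dvd_one.1 h1
  · have h1 : Tendsto (fun n => ((Tmix (lazyMeas (S n)) (1 / 4) : ℝ) /
        (1 / ((1 / 2) * (1 - w n)))) * (1 / ((1 / 2) * (1 - w n)))) atTop atTop := by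
      refine (hmix (1 / 4) (by norm_num) (by norm_num)).pos_mul_atTop ?_ hsq.tlim
      apply Real.log_pos
      norm_num
    have h2 : Tendsto (fun n => (Tmix (lazyMeas (S n)) (1 / 4) : ℝ) / 8)
        atTop atTop := by
      refine (h1.atTop_div_const (by norm_num : (0 : ℝ) < 8)).congr fun n => ?_
      have h3 : (1 / ((1 / 2) * (1 - w n)) : ℝ) ≠ 0 := by
        have := hsq.tpos n
        linarith
      rw [div_mul_cancel₀ _ h3]
    refine tendsto_atTop_mono (fun n => ?_) h2
    exact div_le_div_of_nonneg_left (Nat.cast_nonneg _) (hrel n).1 (hrel n).2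

end Q296.Cyc
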